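import Pool.Agent.H13.MA.MStmts

/-!
Modules SPC and MFIN of the project MA.
-/

set_option linter.unusedVariables false
set_option synthInstance.maxSize 100000

namespace SW

section
variable {M : Type} [SetStr M] [ZF M]

theorem spc_omega : IsOmega (om : M) := by
  refine ⟨⟨⟨emp, not_mem_emp, emp_mem_om⟩, fun y hy => ⟨suc y, fun t => mem_suc,
    suc_mem_om hy⟩⟩, ?_⟩
  rintro z ⟨⟨e, he, hez⟩, hs⟩ n hn
  refine mem_om.1 hn z ⟨?_, fun y hy => ?_⟩
  · rwa [← eq_emp he]
  · obtain ⟨s, hs1, hs2⟩ := hs y hy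
    have : s = suc y := ext fun w => by rw [hs1, mem_suc]
    rwa [← this]

theorem spc_uni {X T : M} (h : IsTopology X T) {c : M} (hc : Sub c T) : E (sUn c) T :=
  h.2.2.1 c (sUn c) hc fun z => mem_sUn

theorem spc_int {X T : M} (h : IsTopology X T) {U V : M} (hU : E U T) (hV : E V T) :
    E (inter U V) T :=
  h.2.2.2 U V _ hU hV fun z => mem_inter

theorem spc_reg {X T : M} (h : IsTopology X T) (hr : IsRegularSpace X T) {U x : M} (hU : E U T)
    (hx : E x U) : ∃ V, E V T ∧ E x V ∧ ∀ y, E y X → Clo T V y → E y U := by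
  have hxX : E x X := h.1 U hU x hx
  have hcl : IsClosedSet X T (diff X U) := by
    refine ⟨fun z hz => ?_, U, hU, fun z => ?_⟩
    · rw [mem_diff] at hz
      exact hz.1
    · rw [mem_diff]
      constructor
      · intro hz
        exact ⟨h.1 U hU z hz, fun h' => h'.2 hz⟩
      · rintro ⟨h1, h2⟩
        by_contra h3
        exact h2 ⟨h1, h3⟩
  obtain ⟨U1, V1, hU1, hV1, hxU1, hCV, hdisj⟩ := hr.2 x (diff X U) hxX hcl (by
    rw [mem_diff]
    exact fun h' => h'.2 hx)
  refine ⟨U1, hU1, hxU1, fun y hy hcy => ?_⟩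
  by_contra hyU
  have hyV : E y V1 := hCV y (by rw [mem_diff]; exact ⟨hy, hyU⟩)
  obtain ⟨z, hz1, hz2⟩ := hcy V1 hV1 hyV
  exact hdisj z ⟨hz2, hz1⟩

end

theorem ma_spc (hacf : ACFStmt) (hcbt : CBTStmt) (hctr : CTRStmt) : SPCStmt := by
  intro M _ _ X T B hT hR hS hB hN hC
  obtain ⟨D, hDX, hDC, hDd⟩ := hS
  have hcb := hcbt M
  have bT : Sub B T := hB.1
  refine ⟨D, ⟨fun hU => hT.1 _ hU, hT.2.1, fun hc => spc_uni hT hc, fun hU hV => spc_int hT hU hV,
    fun hU hx => spc_reg hT hR hU hx, bT, fun hU hx => hB.2 _ _ hU hx, hDX, (hctr M D).1 hDC,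
    fun hU hx => hDd _ hU hx, ?_, ?_⟩⟩
  · -- maximal elements
    intro S hSB hne
    by_contra hcon
    push Not at hcon
    obtain ⟨A0, hA0⟩ := hne
    obtain ⟨g, hg⟩ := hacf M S
    let nx : M → M := fun A => app g (sep S (fun A' : M => Sub A A' ∧ A' ≠ A))
    have hnx : Fn1 (fun A : M => nx A) := by
      show Fn1 (fun A : M => app g (sep S (fun A' : M => Sub A A' ∧ A' ≠ A)))
      infer_instance
    have hnx' : ∀ A, E A S → E (nx A) S ∧ Sub A (nx A) ∧ nx A ≠ A := by
      intro A hA
      have h1 : E (nx A) (sep S (fun A' : M => Sub A A' ∧ A' ≠ A)) := by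
        refine hg _ (fun z hz => ?_) ?_
        · rw [mem_sep' inferInstance] at hz
          exact hz.1
        · obtain ⟨A', hA', hs, hn⟩ := hcon A hA
          exact ⟨A', by rw [mem_sep' inferInstance]; exact ⟨hA', hs, hn⟩⟩
      rw [mem_sep' inferInstance] at h1
      exact h1
    have hmem : ∀ n, E n om → E (orec A0 nx n) S := by
      refine om_ind (C := fun n : M => E (orec A0 nx n) S) ?_ ?_ ?_
      · have := DfT.orec (M := M) (n := 1) (t := fun _ => A0) (s := fun w => w 0)
          (H := fun x _ => nx x) (h := hnx.comp1 inferInstance)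
        infer_instance
      · rw [orec_zero hnx]; exact hA0
      · intro n hn ih
        rw [orec_suc hnx hn]
        exact (hnx' _ ih).1
    have hf : Fn1 (fun n : M => orec A0 nx n) :=
      DfT.orec (M := M) (n := 1) (t := fun _ => A0) (s := fun w => w 0)
        (H := fun x _ => nx x) (h := hnx.comp1 inferInstance)
    refine hN ⟨om, gr om (fun n => orec A0 nx n), spc_omega, ?_, ?_, ?_⟩
    · intro n hn
      refine ⟨orec A0 nx n, hSB _ (hmem n hn), ?_⟩
      rw [pairIn_iff, opair_mem_gr hf]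
      exact ⟨hn, rfl⟩
    · intro n A A' h1 h2
      rw [pairIn_iff, opair_mem_gr hf] at h1 h2
      rw [h1.2, h2.2]
    · intro n s A A' hn hs h1 h2
      rw [pairIn_iff, opair_mem_gr hf] at h1 h2
      have hs' : s = suc n := ext fun w => by rw [hs, mem_suc]
      subst hs'
      rw [orec_suc hnx hn] at h2
      have h3 := hnx' _ (hmem n hn)
      rw [h1.2, h2.2]
      exact ⟨h3.2.1, fun e => h3.2.2 e.symm⟩
  · -- incomparable families are countable
    intro A hAB hinc
    have h1 : Cb (bun (sing emp) (sUn (img D (fun d : M => sep A (fun U : M => E d U))))) := by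
      refine hcb.bun ?_ (hcb.iUn (fun d : M => sep A (fun U : M => E d U)) inferInstance
        ((hctr M D).1 hDC) ?_)
      · refine hcb.sub hcb.om (fun z hz => ?_)
        rw [mem_sing] at hz
        rw [hz]
        exact emp_mem_om
      · intro d hd
        rw [← hctr M]
        refine hC d _ (hDX d hd) (fun z hz => ?_) (fun U V hU hV hUV => ?_) (fun U hU => ?_)
        · rw [mem_sep' inferInstance] at hz
          exact hAB z hz.1
        · rw [mem_sep' inferInstance] at hU hV
          exact hinc U V hU.1 hV.1 hUV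
        · rw [mem_sep' inferInstance] at hU
          exact hU.2
    refine hcb.sub h1 (fun U hU => ?_)
    rw [mem_bun, mem_sing, mem_sUn]
    by_cases hne : ∃ x, E x U
    · right
      obtain ⟨d, hdU, hdD⟩ := hDd U (bT U (hAB U hU)) hne
      refine ⟨sep A (fun U : M => E d U), ?_, ?_⟩
      · rw [mem_img' inferInstance]
        exact ⟨d, hdD, rfl⟩
      · rw [mem_sep' inferInstance]
        exact ⟨hU, hdU⟩
    · left
      exact eq_emp fun z hz => hne ⟨z, hz⟩

theorem ma_mfin (hmet : METStmt) (hctr : CTRStmt) : MFINStmt := by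
  intro M _ _ X T B hT hR hB hC
  refine hmet M X T B ⟨fun hU => hT.1 _ hU, hT.2.1, fun hc => spc_uni hT hc,
    fun hU hV => spc_int hT hU hV, fun hU hx => spc_reg hT hR hU hx, ?_, hB.1,
    fun hU hx => hB.2 _ _ hU hx, (hctr M B).1 hC⟩
  intro x y hx hy hxy
  obtain ⟨C, hC1, -, U, hU, hU'⟩ := hR.1 y hy
  refine ⟨U, hU, ?_, ?_⟩
  · rw [hU', hC1]
    exact ⟨hx, hxy⟩
  · rw [hU', hC1]
    exact fun h => h.2 rfl

end SW
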